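import Pool.Agent.W744.NG.Stubs

set_option autoImplicit false
set_option linter.unusedSectionVars false
set_option linter.unusedSimpArgs false

/-!
Approximation of bounded functions on a product by step functions on cells.
-/

namespace Pool.Agent.W368.NG.Approx

open MeasureTheory Set Filter Topology
open scoped ENNReal symmDiff
open Pool.Agent.W744.NG

section part
variable {Z ι : Type*} [MeasurableSpace Z] [Fintype ι] (m : Measure Z) [IsProbabilityMeasure m]
  (C : Z → ι) (hC : ∀ i, MeasurableSet (C ⁻¹' {i}))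
include hC

lemma sum_part {E : Type*} [NormedAddCommGroup E] [NormedSpace ℝ E] (g : Z → E)
    (hg : Integrable g m) : ∫ z, g z ∂m = ∑ i, ∫ z in C ⁻¹' {i}, g z ∂m := by
  classical
  have h1 : ∀ i, ∫ z in C ⁻¹' {i}, g z ∂m = ∫ z, (C ⁻¹' {i}).indicator g z ∂m := fun i =>
    (integral_indicator (hC i)).symm
  simp_rw [h1]
  rw [← integral_finsetSum _ fun i _ => hg.indicator (hC i)]
  refine integral_congr_ae (Eventually.of_forall fun z => ?_)
  simp only
  rw [Finset.sum_eq_single (C z)]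
  · simp
  · intro i _ hi
    rw [indicator_of_notMem]
    simpa using fun h => hi h.symm
  · intro h
    exact absurd (Finset.mem_univ _) h

lemma meas_comp {E : Type*} [MeasurableSpace E] (φ : ι → E) : Measurable (fun z => φ (C z)) := by
  classical
  intro s _
  have : (fun z => φ (C z)) ⁻¹' s = ⋃ i ∈ {i | φ i ∈ s}, C ⁻¹' {i} := by
    ext z
    simp
  rw [this]
  exact MeasurableSet.biUnion (Set.to_countable _) fun i _ => hC i

lemma int_comp {E : Type*} [NormedAddCommGroup E] [NormedSpace ℝ E] [CompleteSpace E] (φ : ι → E) (i : ι) :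
    ∫ z in C ⁻¹' {i}, φ (C z) ∂m = m.real (C ⁻¹' {i}) • φ i := by
  rw [setIntegral_congr_fun (g := fun _ => φ i) (hC i)]
  · rw [setIntegral_const]
  · intro z hz
    have : C z = i := by simpa using hz
    simp [this]

lemma avg_bound (h : Z → ℂ) (hm : Measurable h) (hb : ∀ z, ‖h z‖ ≤ 1) (s F : ι → ℂ)
    (hF : ∀ i, m.real (C ⁻¹' {i}) • F i = ∫ z in C ⁻¹' {i}, h z ∂m) :
    ∫ z, ‖h z - F (C z)‖ ∂m ≤ 2 * ∫ z, ‖h z - s (C z)‖ ∂m := by
  classical
  have hbd : ∀ φ : ι → ℂ, ∃ B : ℝ, ∀ i, ‖φ i‖ ≤ B := fun φ =>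
    ⟨∑ i, ‖φ i‖, fun i => Finset.single_le_sum (f := fun i => ‖φ i‖)
      (fun j _ => norm_nonneg _) (Finset.mem_univ i)⟩
  have hh : Integrable h m :=
    Integrable.of_bound hm.aestronglyMeasurable 1 (Eventually.of_forall hb)
  have hφ : ∀ φ : ι → ℂ, Integrable (fun z => φ (C z)) m := by
    intro φ
    obtain ⟨B, hB⟩ := hbd φ
    exact Integrable.of_bound (meas_comp C hC φ).aestronglyMeasurable B
      (Eventually.of_forall fun z => hB _)
  have h1 : ∫ z, ‖h z - F (C z)‖ ∂m ≤ ∫ z, (‖h z - s (C z)‖ + ‖s (C z) - F (C z)‖) ∂m := by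
    refine integral_mono (hh.sub (hφ F)).norm
      ((hh.sub (hφ s)).norm.add ((hφ s).sub (hφ F)).norm) fun z => ?_
    simpa using norm_sub_le_norm_sub_add_norm_sub (h z) (s (C z)) (F (C z))
  have h1' : ∫ z, (‖h z - s (C z)‖ + ‖s (C z) - F (C z)‖) ∂m
      = ∫ z, ‖h z - s (C z)‖ ∂m + ∫ z, ‖s (C z) - F (C z)‖ ∂m :=
    integral_add (hh.sub (hφ s)).norm ((hφ s).sub (hφ F)).norm
  rw [h1'] at h1
  have h2 : ∫ z, ‖s (C z) - F (C z)‖ ∂m ≤ ∫ z, ‖h z - s (C z)‖ ∂m := by
    have q1 : ∫ z, ‖s (C z) - F (C z)‖ ∂m = ∑ i, ∫ z in C ⁻¹' {i}, ‖s (C z) - F (C z)‖ ∂m :=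
      sum_part m C hC _ ((hφ s).sub (hφ F)).norm
    have q2 : ∫ z, ‖h z - s (C z)‖ ∂m = ∑ i, ∫ z in C ⁻¹' {i}, ‖h z - s (C z)‖ ∂m :=
      sum_part m C hC _ (hh.sub (hφ s)).norm
    rw [q1, q2]
    refine Finset.sum_le_sum fun i _ => ?_
    have e1 : ∫ z in C ⁻¹' {i}, ‖s (C z) - F (C z)‖ ∂m
        = m.real (C ⁻¹' {i}) * ‖s i - F i‖ := by
      have := int_comp m C hC (fun i => ‖s i - F i‖) i
      simpa using this
    have e2 : m.real (C ⁻¹' {i}) * ‖s i - F i‖ = ‖∫ z in C ⁻¹' {i}, (s (C z) - h z) ∂m‖ := by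
      rw [integral_sub (hφ s).integrableOn hh.integrableOn, int_comp m C hC s i, ← hF i,
        ← smul_sub, norm_smul, Real.norm_of_nonneg measureReal_nonneg]
    show ∫ z in C ⁻¹' {i}, ‖s (C z) - F (C z)‖ ∂m ≤ ∫ z in C ⁻¹' {i}, ‖h z - s (C z)‖ ∂m
    rw [e1, e2]
    refine (norm_integral_le_integral_norm _).trans (le_of_eq ?_)
    refine integral_congr_ae (Eventually.of_forall fun z => ?_)
    exact norm_sub_rev _ _
  linarith

lemma L2_bound (g : Z → ℂ) (hg : Measurable g) (hb : ∀ z, ‖g z‖ ≤ 2) (ε : ℝ) (hε : 0 < ε)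
    (h1 : ∫ z, ‖g z‖ ∂m ≤ ε ^ 2 / 2) : eLpNorm g 2 m ≤ ENNReal.ofReal ε := by
  have hi : Integrable (fun z => ‖g z‖) m :=
    (Integrable.of_bound hg.aestronglyMeasurable 2 (Eventually.of_forall hb)).norm
  have h2 : Integrable (fun z => ‖g z‖ ^ 2) m := by
    refine Integrable.of_bound (hg.norm.pow_const 2).aestronglyMeasurable 4
      (Eventually.of_forall fun z => ?_)
    rw [Real.norm_of_nonneg (by positivity)]
    nlinarith [hb z, norm_nonneg (g z)]
  have h3 : ∫ z, ‖g z‖ ^ 2 ∂m ≤ ε ^ 2 := by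
    calc ∫ z, ‖g z‖ ^ 2 ∂m ≤ ∫ z, 2 * ‖g z‖ ∂m := by
          refine integral_mono h2 (hi.const_mul 2) fun z => ?_
          show ‖g z‖ ^ 2 ≤ 2 * ‖g z‖
          nlinarith [hb z, norm_nonneg (g z)]
      _ = 2 * ∫ z, ‖g z‖ ∂m := integral_const_mul _ _
      _ ≤ ε ^ 2 := by linarith
  have hmem : MemLp g 2 m := by
    refine MemLp.of_bound hg.aestronglyMeasurable 2 (Eventually.of_forall hb)
  rw [MemLp.eLpNorm_eq_integral_rpow_norm (by norm_num) (by norm_num) hmem]
  refine ENNReal.ofReal_le_ofReal ?_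
  have e1 : ∫ a, ‖g a‖ ^ ((2 : ℝ≥0∞).toReal) ∂m = ∫ a, ‖g a‖ ^ 2 ∂m := by
    refine integral_congr_ae (Eventually.of_forall fun z => ?_)
    simp
  rw [e1]
  have e2 : (0 : ℝ) ≤ ∫ a, ‖g a‖ ^ 2 ∂m := integral_nonneg fun z => by positivity
  have e3 : ((2 : ℝ≥0∞).toReal)⁻¹ = 1 / 2 := by norm_num
  rw [e3, ← Real.sqrt_eq_rpow]
  exact Real.sqrt_le_iff.mpr ⟨hε.le, h3⟩

end part

section cells
variable {X Y : Type} [MeasurableSpace X] [MeasurableSpace Y] {μ : Measure X} {ν : Measure Y}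
  [IsProbabilityMeasure μ] [IsProbabilityMeasure ν] {T : X → X} (W : Tow μ T) (D : YS ν)

/-- the cells -/
abbrev Cell (j : ℕ) : Type := Fin (W.K j) × (Fin (j + 1) → ZMod 2)

/-- the cell of a point -/
def cell (j : ℕ) (z : X × Y) : Cell W j := (W.P j z.1, D.v (j + 1) z.2)

lemma cell_meas (j : ℕ) (i : Cell W j) : MeasurableSet (cell W D j ⁻¹' {i}) := by
  have : cell W D j ⁻¹' {i} = {x | W.P j x = i.1} ×ˢ {y | D.v (j + 1) y = i.2} := by
    ext ⟨x, y⟩
    simp [cell, Prod.ext_iff]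
  rw [this]
  exact (W.meas j (measurableSet_singleton i.1)).prod (D.meas _ _)

lemma cell_set (j : ℕ) (S : Set (Cell W j)) : MeasurableSet (cell W D j ⁻¹' S) := by
  have : cell W D j ⁻¹' S = ⋃ i ∈ S, cell W D j ⁻¹' {i} := by
    ext z
    simp
  rw [this]
  exact MeasurableSet.biUnion (Set.to_countable _) fun i _ => cell_meas W D j i

lemma cell_real (j : ℕ) (i : Cell W j) :
    (μ.prod ν).real (cell W D j ⁻¹' {i}) = 1 / W.K j * (1 / 2 ^ (j + 1)) := by
  have : cell W D j ⁻¹' {i} = {x | W.P j x = i.1} ×ˢ {y | D.v (j + 1) y = i.2} := by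
    ext ⟨x, y⟩
    simp [cell, Prod.ext_iff]
  rw [this, measureReal_prod_prod, W.unif, D.unif]

lemma P_ref (j j' : ℕ) (hj : j ≤ j') (x x' : X) (h : W.P j' x = W.P j' x') :
    W.P j x = W.P j x' := by
  induction j', hj using Nat.le_induction with
  | base => exact h
  | succ k hk ih =>
    apply ih
    rw [← W.ref k x, ← W.ref k x', h]

lemma cell_ref (j j' : ℕ) (hj : j ≤ j') (z z' : X × Y) (h : cell W D j' z = cell W D j' z') :
    cell W D j z = cell W D j z' := by
  simp only [cell, Prod.mk.injEq] at h ⊢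
  exact ⟨P_ref W j j' hj _ _ h.1, D.ref (j + 1) (j' + 1) (by omega) _ _ h.2⟩

lemma lift (j j' : ℕ) (hj : j ≤ j') (α : Type*) [Nonempty α] (s : Cell W j → α) :
    ∃ s' : Cell W j' → α, ∀ z : X × Y, s' (cell W D j' z) = s (cell W D j z) := by
  classical
  refine ⟨fun c => if h : ∃ z, cell W D j' z = c then s (cell W D j h.choose)
    else Classical.arbitrary α, fun z => ?_⟩
  have h : ∃ z', cell W D j' z' = cell W D j' z := ⟨z, rfl⟩
  simp only [h, dite_true]
  rw [cell_ref W D j j' hj _ _ h.choose_spec]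

lemma lift_set (j j' : ℕ) (hj : j ≤ j') (S : Set (Cell W j)) :
    ∃ S' : Set (Cell W j'), cell W D j' ⁻¹' S' = cell W D j ⁻¹' S := by
  obtain ⟨s', hs'⟩ := lift W D j j' hj Prop (fun c => c ∈ S)
  refine ⟨{c | s' c}, ?_⟩
  ext z
  simp only [mem_preimage, mem_ofPred_eq, hs']

/-- sets that are approximated by unions of cells -/
def Good (E : Set (X × Y)) : Prop := ∀ ε : ℝ, 0 < ε → ∃ (j : ℕ) (S : Set (Cell W j)),
  (μ.prod ν).real (E ∆ (cell W D j ⁻¹' S)) < ε

lemma good_union (E E' : Set (X × Y)) (h : Good W D E) (h' : Good W D E') :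
    Good W D (E ∪ E') := by
  intro ε hε
  obtain ⟨j, S, hS⟩ := h (ε / 2) (by positivity)
  obtain ⟨j', S', hS'⟩ := h' (ε / 2) (by positivity)
  obtain ⟨S1, h1⟩ := lift_set W D j (max j j') (le_max_left _ _) S
  obtain ⟨S2, h2⟩ := lift_set W D j' (max j j') (le_max_right _ _) S'
  refine ⟨max j j', S1 ∪ S2, ?_⟩
  rw [preimage_union, h1, h2]
  have h3 : (E ∪ E') ∆ (cell W D j ⁻¹' S ∪ cell W D j' ⁻¹' S') ⊆
      (E ∆ (cell W D j ⁻¹' S)) ∪ (E' ∆ (cell W D j' ⁻¹' S')) := by
    intro z hz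
    simp only [mem_symmDiff, mem_union] at hz ⊢
    tauto
  calc _ ≤ (μ.prod ν).real ((E ∆ (cell W D j ⁻¹' S)) ∪ (E' ∆ (cell W D j' ⁻¹' S'))) :=
        measureReal_mono h3
    _ ≤ _ := measureReal_union_le _ _
    _ < ε := by linarith

lemma good_all (E : Set (X × Y)) (hE : MeasurableSet E) : Good W D E := by
  induction E, hE using MeasurableSpace.induction_on_inter generateFrom_prod.symm
    isPiSystem_prod with
  | empty =>
    intro ε hε
    exact ⟨0, ∅, by simpa using hε⟩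
  | basic E hE =>
    obtain ⟨A, hA, B, hB, rfl⟩ := hE
    intro ε hε
    obtain ⟨j, s, hs⟩ := W.gen A hA (ε / 2) (by positivity)
    obtain ⟨r, t, ht⟩ := D.gen B hB (ε / 2) (by positivity)
    have hpre : ∃ S : Set (Cell W (max j r)),
        cell W D (max j r) ⁻¹' S = {x | W.P j x ∈ s} ×ˢ {y | D.v r y ∈ t} := by
      refine ⟨cell W D (max j r) '' ({x | W.P j x ∈ s} ×ˢ {y | D.v r y ∈ t}), ?_⟩
      refine Subset.antisymm ?_ (subset_preimage_image _ _)
      rintro ⟨x, y⟩ ⟨⟨x', y'⟩, ⟨h1, h2⟩, h3⟩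
      simp only [cell, Prod.mk.injEq] at h3
      refine ⟨?_, ?_⟩
      · show W.P j x ∈ s
        rw [← P_ref W j (max j r) (le_max_left _ _) _ _ h3.1]
        exact h1
      · show D.v r y ∈ t
        rw [← D.ref r (max j r + 1) (by omega) _ _ h3.2]
        exact h2
    obtain ⟨S, hS⟩ := hpre
    refine ⟨max j r, S, ?_⟩
    rw [hS]
    have h3 : (A ×ˢ B) ∆ ({x | W.P j x ∈ s} ×ˢ {y | D.v r y ∈ t}) ⊆
        ((A ∆ {x | W.P j x ∈ s}) ×ˢ univ) ∪ (univ ×ˢ (B ∆ {y | D.v r y ∈ t})) := by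
      rintro ⟨x, y⟩ hz
      simp only [mem_symmDiff, mem_union, mem_prod, mem_univ, and_true, true_and,
        mem_ofPred_eq] at hz ⊢
      tauto
    calc _ ≤ (μ.prod ν).real (((A ∆ {x | W.P j x ∈ s}) ×ˢ univ) ∪
          (univ ×ˢ (B ∆ {y | D.v r y ∈ t}))) := measureReal_mono h3
      _ ≤ _ := measureReal_union_le _ _
      _ < ε := by
        rw [measureReal_prod_prod, measureReal_prod_prod]
        simp only [probReal_univ, mul_one, one_mul]
        linarith
  | compl E hE ih =>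
    intro ε hε
    obtain ⟨j, S, hS⟩ := ih ε hε
    refine ⟨j, Sᶜ, ?_⟩
    have : Eᶜ ∆ (cell W D j ⁻¹' Sᶜ) = E ∆ (cell W D j ⁻¹' S) := by
      ext z
      simp only [mem_symmDiff, mem_compl_iff, mem_preimage]
      tauto
    rw [this]
    exact hS
  | iUnion f hd hm ih =>
    intro ε hε
    have hfin : ∀ N, Good W D (⋃ n < N, f n) := by
      intro N
      induction N with
      | zero =>
        intro ε hε
        exact ⟨0, ∅, by simpa using hε⟩
      | succ N ihN =>
        have : (⋃ n < N + 1, f n) = (⋃ n < N, f n) ∪ f N := by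
          rw [biUnion_lt_succ]
        rw [this]
        exact good_union W D _ _ ihN (ih N)
    have hlim : Tendsto (fun N => (μ.prod ν) (⋃ n < N, f n)) atTop (𝓝 ((μ.prod ν) (⋃ n, f n))) := by
      have h1 := tendsto_measure_iUnion_accumulate (μ := μ.prod ν) (f := f)
      have h2 : (fun N => (μ.prod ν) (⋃ n < N + 1, f n)) =
          fun N => (μ.prod ν) (Set.accumulate f N) := by
        funext N
        congr 1
        ext z
        simp [Set.accumulate_def, Nat.lt_succ_iff]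
      rw [← tendsto_add_atTop_iff_nat 1, h2]
      exact h1
    have hlim' : Tendsto (fun N => (μ.prod ν).real (⋃ n < N, f n)) atTop
        (𝓝 ((μ.prod ν).real (⋃ n, f n))) :=
      (ENNReal.tendsto_toReal (measure_ne_top _ _)).comp hlim
    obtain ⟨N, hN⟩ := ((tendsto_order.1 hlim').1 ((μ.prod ν).real (⋃ n, f n) - ε / 2)
      (by linarith)).exists
    obtain ⟨j, S, hS⟩ := hfin N (ε / 2) (by positivity)
    refine ⟨j, S, ?_⟩
    have hmN : MeasurableSet (⋃ n < N, f n) :=
      MeasurableSet.biUnion (Set.to_countable _) fun n _ => hm n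
    have hsub : (⋃ n < N, f n) ⊆ ⋃ n, f n :=
      iUnion₂_subset fun n _ => subset_iUnion f n
    have h3 : (⋃ n, f n) ∆ (cell W D j ⁻¹' S) ⊆
        ((⋃ n, f n) \ (⋃ n < N, f n)) ∪ ((⋃ n < N, f n) ∆ (cell W D j ⁻¹' S)) := by
      intro z hz
      have hz2 : z ∈ (⋃ n < N, f n) → z ∈ ⋃ n, f n := fun h => hsub h
      rw [mem_symmDiff] at hz
      rw [mem_union, Set.mem_sdiff, mem_symmDiff]
      tauto
    calc _ ≤ (μ.prod ν).real (((⋃ n, f n) \ (⋃ n < N, f n)) ∪
          ((⋃ n < N, f n) ∆ (cell W D j ⁻¹' S))) := measureReal_mono h3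
      _ ≤ _ := measureReal_union_le _ _
      _ < ε := by
        rw [measureReal_sdiff hsub hmN]
        linarith

/-- functions approximated by step functions -/
def GoodF (f : X × Y → ℂ) : Prop := ∀ ε : ℝ, 0 < ε → ∃ (j : ℕ) (s : Cell W j → ℂ),
  ∫⁻ z, ‖f z - s (cell W D j z)‖ₑ ∂(μ.prod ν) < ENNReal.ofReal ε

lemma cm (j : ℕ) (s : Cell W j → ℂ) : Measurable (fun z : X × Y => s (cell W D j z)) :=
  meas_comp (cell W D j) (cell_meas W D j) s

lemma good_simple (f : SimpleFunc (X × Y) ℂ) : GoodF W D f := by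
  induction f using SimpleFunc.induction with
  | @const c s hs =>
    intro ε hε
    obtain ⟨j, S, hS⟩ := good_all W D s hs (ε / (‖c‖ + 1)) (by positivity)
    classical
    refine ⟨j, fun i => if i ∈ S then c else 0, ?_⟩
    have h1 : ∀ z : X × Y, ‖(SimpleFunc.piecewise s hs (SimpleFunc.const _ c)
        (SimpleFunc.const _ 0)) z - (if cell W D j z ∈ S then c else 0)‖ₑ ≤
        (s ∆ (cell W D j ⁻¹' S)).indicator (fun _ => ‖c‖ₑ) z := by
      intro z
      by_cases h1 : z ∈ s <;> by_cases h2 : cell W D j z ∈ S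
      · simp [h1, h2]
      · have : z ∈ s ∆ (cell W D j ⁻¹' S) := by
          rw [mem_symmDiff]; exact Or.inl ⟨h1, h2⟩
        simp [h1, h2, this]
      · have : z ∈ s ∆ (cell W D j ⁻¹' S) := by
          rw [mem_symmDiff]; exact Or.inr ⟨h2, h1⟩
        simp [h1, h2, this]
      · simp [h1, h2]
    have hms : MeasurableSet (s ∆ (cell W D j ⁻¹' S)) := hs.symmDiff (cell_set W D j S)
    calc _ ≤ ∫⁻ z, (s ∆ (cell W D j ⁻¹' S)).indicator (fun _ => ‖c‖ₑ) z ∂(μ.prod ν) :=
          lintegral_mono h1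
      _ = ‖c‖ₑ * (μ.prod ν) (s ∆ (cell W D j ⁻¹' S)) := by
          rw [lintegral_indicator_const hms]
      _ = ENNReal.ofReal (‖c‖ * (μ.prod ν).real (s ∆ (cell W D j ⁻¹' S))) := by
          rw [ENNReal.ofReal_mul (norm_nonneg _), ofReal_norm, ofReal_measureReal]
      _ < ENNReal.ofReal ε := by
          rw [ENNReal.ofReal_lt_ofReal_iff hε]
          have h5 : (0 : ℝ) < ‖c‖ + 1 := by positivity
          have h6 : (μ.prod ν).real (s ∆ (cell W D j ⁻¹' S)) * (‖c‖ + 1) < ε :=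
            (lt_div_iff₀ h5).mp hS
          have h7 : 0 ≤ (μ.prod ν).real (s ∆ (cell W D j ⁻¹' S)) := measureReal_nonneg
          nlinarith
  | @add f g hd hf hg =>
    intro ε hε
    obtain ⟨j, s, hs⟩ := hf (ε / 2) (by positivity)
    obtain ⟨j', s', hs'⟩ := hg (ε / 2) (by positivity)
    obtain ⟨s1, h1⟩ := lift W D j (max j j') (le_max_left _ _) ℂ s
    obtain ⟨s2, h2⟩ := lift W D j' (max j j') (le_max_right _ _) ℂ s'
    refine ⟨max j j', fun i => s1 i + s2 i, ?_⟩
    calc ∫⁻ z, ‖(f + g) z - (s1 (cell W D (max j j') z) + s2 (cell W D (max j j') z))‖ₑ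
          ∂(μ.prod ν)
        ≤ ∫⁻ z, (‖f z - s (cell W D j z)‖ₑ + ‖g z - s' (cell W D j' z)‖ₑ) ∂(μ.prod ν) := by
          refine lintegral_mono fun z => ?_
          rw [h1, h2]
          have e1 : (f + g) z - (s (cell W D j z) + s' (cell W D j' z))
              = (f z - s (cell W D j z)) + (g z - s' (cell W D j' z)) := by
            simp only [SimpleFunc.coe_add, Pi.add_apply]
            ring
          rw [e1]
          exact enorm_add_le _ _
      _ = _ := lintegral_add_left ((f.measurable.sub (cm W D j s)).enorm) _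
      _ < ENNReal.ofReal (ε / 2) + ENNReal.ofReal (ε / 2) := ENNReal.add_lt_add hs hs'
      _ = ENNReal.ofReal ε := by
          rw [← ENNReal.ofReal_add (by positivity) (by positivity)]
          congr 1
          ring

lemma good_bdd (h : X × Y → ℂ) (hm : Measurable h) (hb : ∀ z, ‖h z‖ ≤ 1) : GoodF W D h := by
  intro ε hε
  have hi : Integrable h (μ.prod ν) :=
    Integrable.of_bound hm.aestronglyMeasurable 1 (Eventually.of_forall hb)
  have h1 := SimpleFunc.tendsto_approxOn_range_L1_enorm hm hi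
  have h2 : (0 : ℝ≥0∞) < ENNReal.ofReal (ε / 2) := by
    rw [ENNReal.ofReal_pos]; positivity
  obtain ⟨n, hn⟩ := ((tendsto_order.1 h1).2 _ h2).exists
  set g := SimpleFunc.approxOn h hm (range h ∪ {0}) 0 (by simp) n with hg
  obtain ⟨j, s, hs⟩ := good_simple W D g (ε / 2) (by positivity)
  refine ⟨j, s, ?_⟩
  calc ∫⁻ z, ‖h z - s (cell W D j z)‖ₑ ∂(μ.prod ν)
      ≤ ∫⁻ z, (‖g z - h z‖ₑ + ‖g z - s (cell W D j z)‖ₑ) ∂(μ.prod ν) := by
        refine lintegral_mono fun z => ?_
        have e1 : h z - s (cell W D j z) = -(g z - h z) + (g z - s (cell W D j z)) := by ring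
        rw [e1]
        refine (enorm_add_le _ _).trans (le_of_eq ?_)
        rw [enorm_neg]
    _ = _ := lintegral_add_left ((g.measurable.sub hm).enorm) _
    _ < ENNReal.ofReal (ε / 2) + ENNReal.ofReal (ε / 2) := ENNReal.add_lt_add hn hs
    _ = ENNReal.ofReal ε := by
        rw [← ENNReal.ofReal_add (by positivity) (by positivity)]
        congr 1
        ring

end cells

theorem main : S_Approx := by
  intro X Y _ _ μ ν _ _ T W D h hm hb h0 ε hε
  obtain ⟨j₁, s₁, hs₁⟩ := good_bdd W D h hm hb (ε ^ 2 / 4) (by positivity)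
  refine ⟨j₁, fun j hj => ?_⟩
  obtain ⟨s, hs⟩ := lift W D j₁ j hj ℂ s₁
  have hi : Integrable h (μ.prod ν) :=
    Integrable.of_bound hm.aestronglyMeasurable 1 (Eventually.of_forall hb)
  set m := μ.prod ν with hmdef
  have hX : Nonempty X := by
    by_contra hne
    rw [not_nonempty_iff] at hne
    exact IsProbabilityMeasure.ne_zero μ (Measure.eq_zero_of_isEmpty μ)
  have hK : (0 : ℝ) < W.K j := by
    have : 0 < W.K j := Fin.pos (W.P j hX.some)
    exact_mod_cast this
  have hp : ∀ c : Cell W j, 0 < m.real (cell W D j ⁻¹' {c}) := by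
    intro c
    rw [cell_real]
    positivity
  refine ⟨fun i v => (m.real (cell W D j ⁻¹' {(i, v)}))⁻¹ • ∫ z in cell W D j ⁻¹' {(i, v)}, h z ∂m,
    ?_, ?_, ?_⟩
  · intro i v
    rw [norm_smul, norm_inv, Real.norm_of_nonneg measureReal_nonneg,
      inv_mul_le_iff₀ (hp (i, v)), mul_one]
    have := norm_setIntegral_le_of_norm_le_const (μ := m) (s := cell W D j ⁻¹' {(i, v)})
      (f := h) (C := 1) (measure_lt_top _ _) (fun z _ => hb z)
    simpa using this
  · intro i
    have e1 : ∀ v, (m.real (cell W D j ⁻¹' {(i, v)}))⁻¹ = (1 / (W.K j : ℝ) * (1 / 2 ^ (j + 1)))⁻¹ :=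
      fun v => by rw [cell_real]
    simp_rw [e1]
    rw [← Finset.smul_sum]
    have e2 : ∑ v, ∫ z in cell W D j ⁻¹' {(i, v)}, h z ∂m
        = ∫ z in {x | W.P j x = i} ×ˢ univ, h z ∂m := by
      have hms : MeasurableSet ({x | W.P j x = i} ×ˢ (univ : Set Y)) :=
        (W.meas j (measurableSet_singleton i)).prod MeasurableSet.univ
      have e3 := sum_part m (fun z : X × Y => D.v (j + 1) z.2) (fun v => by
        have : (fun z : X × Y => D.v (j + 1) z.2) ⁻¹' {v} = univ ×ˢ {y | D.v (j + 1) y = v} := by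
          ext ⟨x, y⟩
          simp
        rw [this]
        exact MeasurableSet.univ.prod (D.meas _ _))
        (({x | W.P j x = i} ×ˢ (univ : Set Y)).indicator h) (hi.indicator hms)
      rw [integral_indicator hms] at e3
      rw [e3]
      refine Finset.sum_congr rfl fun v _ => ?_
      rw [setIntegral_indicator hms]
      congr 2
      ext ⟨x, y⟩
      simp [cell, and_comm]
    rw [e2, hmdef, setIntegral_prod]
    · simp only [Measure.restrict_univ, h0, integral_zero, smul_zero]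
    · exact hi.integrableOn
  · have hF := avg_bound m (cell W D j) (cell_meas W D j) h hm hb s
      (fun c => (m.real (cell W D j ⁻¹' {c}))⁻¹ • ∫ z in cell W D j ⁻¹' {c}, h z ∂m)
      (fun c => by rw [smul_smul, mul_inv_cancel₀ (hp c).ne', one_smul])
    have hnF : ∀ c : Cell W j,
        ‖(m.real (cell W D j ⁻¹' {c}))⁻¹ • ∫ z in cell W D j ⁻¹' {c}, h z ∂m‖ ≤ 1 := by
      intro c
      rw [norm_smul, norm_inv, Real.norm_of_nonneg measureReal_nonneg,
        inv_mul_le_iff₀ (hp c), mul_one]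
      have := norm_setIntegral_le_of_norm_le_const (μ := m) (s := cell W D j ⁻¹' {c})
        (f := h) (C := 1) (measure_lt_top _ _) (fun z _ => hb z)
      simpa using this
    have hsm : Measurable (fun z : X × Y => s (cell W D j z)) := cm W D j s
    have hsi : ∫ z, ‖h z - s (cell W D j z)‖ ∂m ≤ ε ^ 2 / 4 := by
      have hms2 : Measurable (fun z : X × Y => h z - s (cell W D j z)) := hm.sub hsm
      rw [integral_norm_eq_lintegral_enorm hms2.aestronglyMeasurable]
      refine ENNReal.toReal_le_of_le_ofReal (by positivity) ?_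
      have e4 : ∀ z, h z - s (cell W D j z) = h z - s₁ (cell W D j₁ z) := fun z => by rw [hs]
      simp_rw [e4]
      exact hs₁.le
    refine L2_bound m (cell W D j) (cell_meas W D j) _ ?_ ?_ ε hε ?_
    · exact hm.sub (cm W D j (fun c => (m.real (cell W D j ⁻¹' {c}))⁻¹ •
        ∫ z in cell W D j ⁻¹' {c}, h z ∂m))
    · intro z
      refine (norm_sub_le _ _).trans ?_
      have h8 := hnF (cell W D j z)
      have h9 := hb z
      have h10 : ‖h z‖ + ‖(m.real (cell W D j ⁻¹' {cell W D j z}))⁻¹ •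
        ∫ z in cell W D j ⁻¹' {cell W D j z}, h z ∂m‖ ≤ 2 := by linarith
      exact h10
    · refine le_trans hF ?_
      linarith

end Pool.Agent.W368.NG.Approx
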